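import Mathlib

/-!
# A ZFC example of a compact-like paratopological group with discontinuous inversion

Let `X = ℕ → ℕ`, let `L` be the free abelian group on `X`, and preorder `L` by eventual
domination of the images under the homomorphism `psi : L → (ℕ → ℤ)` with `psi f = f` for
`f ∈ X`; every countable subset of `L` is bounded above by an element of `X`. Let `J = X × ℝ`,
let `K = ℤ_2 ^ J`, a compact group, and let `Sig` be the subgroup of the elements of countable
support, a `G_δ`-dense subgroup of `K`. The group `G = L × Sig` embeds in `K` by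
`(l, s) ↦ (j ↦ l j.1) + s`. The topology of `G` has the basic neighbourhoods
`{y | h y ∈ W, x ≤ y}` of `x`, with `W` an open neighbourhood of `h x` in `K`. Since every class
of the preorder is `G_δ`-dense in `K` and countable sets are bounded above, the topology is
2-pseudocompact (hence Baire) and pseudocompact; the elements with first coordinate in `X` form a
dense set at which `G` is countably compact, because the generators of `L` converge to `0` in
`K` and `0` is below all of them. Inversion is discontinuous since the preorder is not symmetric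
near `0`.
-/

open Topology Filter Set

namespace Pool.Agent.MP_3a0237_al.Construction

section Abstract

variable {J T G : Type} [AddCommGroup T] [TopologicalSpace T] [IsTopologicalAddGroup T]
  [AddCommGroup G]

/-- The cone topology on `G` determined by a homomorphism `h` into a power of `T` and a
transitive relation `r`: a basic neighbourhood of `x` is `{y | h y ∈ W ∧ r x y}`. -/
@[instance_reducible]
def coneTop (h : G →+ (J → T)) (r : G → G → Prop) : TopologicalSpace G where
  IsOpen U := ∀ x ∈ U, ∃ W : Set (J → T), IsOpen W ∧ h x ∈ W ∧ ∀ y, h y ∈ W → r x y → y ∈ U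
  isOpen_univ := fun x _ => ⟨univ, isOpen_univ, mem_univ _, fun _ _ _ => mem_univ _⟩
  isOpen_inter := by
    intro s t hs ht x hx
    obtain ⟨W1, hW1, hx1, h1⟩ := hs x hx.1
    obtain ⟨W2, hW2, hx2, h2⟩ := ht x hx.2
    exact ⟨W1 ∩ W2, hW1.inter hW2, ⟨hx1, hx2⟩,
      fun y hy hr => ⟨h1 y hy.1 hr, h2 y hy.2 hr⟩⟩
  isOpen_sUnion := by
    intro S hS x hx
    obtain ⟨s, hs, hxs⟩ := hx
    obtain ⟨W, hW, hxW, hy⟩ := hS s hs x hxs
    exact ⟨W, hW, hxW, fun y hyW hr => ⟨s, hs, hy y hyW hr⟩⟩

/-- The data of the construction. -/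
structure Data (J T G : Type) [AddCommGroup T] [TopologicalSpace T] [AddCommGroup G] where
  h : G →+ (J → T)
  r : G → G → Prop
  refl : ∀ x, r x x
  trans : ∀ x y z, r x y → r y z → r x z
  add : ∀ x y x' y', r x y → r x' y' → r (x + x') (y + y')
  inj : Function.Injective h
  /-- countably many elements have a common upper bound -/
  bdd : ∀ x : ℕ → G, ∃ u, ∀ n, r (x n) u
  /-- the classes of the preorder are `G_δ`-dense -/
  dense : ∀ (C : Set J), C.Countable → ∀ (t : J → T) (x : G),
    ∃ w, (∀ j ∈ C, h w j = t j) ∧ r x w ∧ r w x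
  /-- the preorder is not symmetric -/
  pos : ∃ u, ¬ r u 0 ∧ r 0 u

variable (D : Data J T G)

omit [IsTopologicalAddGroup T] in
lemma mem_nhds_iff' (x : G) (N : Set G) :
    N ∈ @nhds G (coneTop D.h D.r) x ↔
      ∃ W : Set (J → T), IsOpen W ∧ D.h x ∈ W ∧ ∀ y, D.h y ∈ W → D.r x y → y ∈ N := by
  let _ : TopologicalSpace G := coneTop D.h D.r
  rw [mem_nhds_iff]
  constructor
  · rintro ⟨U, hUN, hU, hxU⟩
    obtain ⟨W, hW, hxW, hy⟩ := hU x hxU
    exact ⟨W, hW, hxW, fun y h1 h2 => hUN (hy y h1 h2)⟩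
  · rintro ⟨W, hW, hxW, hy⟩
    refine ⟨{y | D.h y ∈ W ∧ D.r x y}, fun y hy' => hy y hy'.1 hy'.2, ?_, hxW, D.refl x⟩
    intro y hy'
    exact ⟨W, hW, hy'.1, fun z hz hr => ⟨hz, D.trans _ _ _ hy'.2 hr⟩⟩

omit [IsTopologicalAddGroup T] in
lemma isOpen_iff' (U : Set G) :
    @IsOpen G (coneTop D.h D.r) U ↔
      ∀ x ∈ U, ∃ W : Set (J → T), IsOpen W ∧ D.h x ∈ W ∧ ∀ y, D.h y ∈ W → D.r x y → y ∈ U :=
  Iff.rfl

/-- Addition is continuous. -/
lemma continuousAdd : @ContinuousAdd G (coneTop D.h D.r) _ := by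
  let _ : TopologicalSpace G := coneTop D.h D.r
  refine ⟨?_⟩
  rw [continuous_iff_continuousAt]
  rintro ⟨x, y⟩
  intro N hN
  rw [mem_nhds_iff'] at hN
  obtain ⟨W, hW, hxW, hy⟩ := hN
  rw [map_add] at hxW
  have hc : ContinuousAt (fun p : (J → T) × (J → T) => p.1 + p.2) (D.h x, D.h y) :=
    continuous_add.continuousAt
  have := hc (hW.mem_nhds hxW)
  rw [Filter.mem_map, nhds_prod_eq, Filter.mem_prod_iff] at this
  obtain ⟨A, hA, B, hB, hAB⟩ := this
  obtain ⟨A', hA'A, hA'o, hxA'⟩ := mem_nhds_iff.1 hA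
  obtain ⟨B', hB'B, hB'o, hyB'⟩ := mem_nhds_iff.1 hB
  rw [Filter.mem_map, nhds_prod_eq, Filter.mem_prod_iff]
  refine ⟨{z | D.h z ∈ A' ∧ D.r x z}, ?_, {z | D.h z ∈ B' ∧ D.r y z}, ?_, ?_⟩
  · rw [mem_nhds_iff']
    exact ⟨A', hA'o, hxA', fun z h1 h2 => ⟨h1, h2⟩⟩
  · rw [mem_nhds_iff']
    exact ⟨B', hB'o, hyB', fun z h1 h2 => ⟨h1, h2⟩⟩
  · rintro ⟨z, z'⟩ ⟨hz, hz'⟩
    refine hy _ ?_ (D.add _ _ _ _ hz.2 hz'.2)
    rw [map_add]
    exact hAB (Set.mk_mem_prod (hA'A hz.1) (hB'B hz'.1))

omit [IsTopologicalAddGroup T] in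
/-- The topology is Hausdorff. -/
lemma t2 [T2Space T] : @T2Space G (coneTop D.h D.r) := by
  let _ : TopologicalSpace G := coneTop D.h D.r
  have hcont : Continuous D.h := by
    rw [continuous_def]
    intro W hW
    rw [isOpen_iff']
    intro x hx
    exact ⟨W, hW, hx, fun y hy _ => hy⟩
  exact T2Space.of_injective_continuous D.inj hcont

omit [AddCommGroup T] [IsTopologicalAddGroup T] in
lemma exists_box (W : Set (J → T)) (hW : IsOpen W) (x : J → T) (hx : x ∈ W) :
    ∃ (F : Finset J) (u : J → Set T), (∀ j ∈ F, IsOpen (u j) ∧ x j ∈ u j) ∧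
      ∀ y : J → T, (∀ j ∈ F, y j ∈ u j) → y ∈ W := by
  rw [isOpen_pi_iff] at hW
  obtain ⟨F, u, h1, h2⟩ := hW x hx
  exact ⟨F, u, h1, fun y hy => h2 (fun j hj => hy j hj)⟩

omit [IsTopologicalAddGroup T] in
/-- Inversion is not continuous. -/
lemma not_continuousNeg : ¬ @ContinuousNeg G (coneTop D.h D.r) _ := by
  let _ : TopologicalSpace G := coneTop D.h D.r
  intro hc
  obtain ⟨u, hu0, hu⟩ := D.pos
  have h1 : ContinuousAt (fun x : G => -x) 0 := hc.continuous_neg.continuousAt
  have h2 : {y : G | D.r 0 y} ∈ 𝓝 (-(0 : G)) := by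
    rw [mem_nhds_iff', neg_zero]
    exact ⟨univ, isOpen_univ, mem_univ _, fun y _ h => h⟩
  have h3 := h1 h2
  rw [Filter.mem_map, mem_nhds_iff'] at h3
  obtain ⟨W, hW, h0W, hy⟩ := h3
  obtain ⟨F, v, hv, hFv⟩ := exists_box W hW _ h0W
  obtain ⟨w, hw1, hw2, hw3⟩ := D.dense (F : Set J) F.countable_toSet (D.h 0) u
  have h4 : D.r 0 (-w) := hy w (hFv _ (fun j hj => by rw [hw1 j hj]; exact (hv j hj).2))
    (D.trans _ _ _ hu hw2)
  have h5 := D.add _ _ _ _ h4 (D.refl w)
  rw [zero_add, neg_add_cancel] at h5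
  exact hu0 (D.trans _ _ _ hw2 h5)

omit [IsTopologicalAddGroup T] in
/-- Key lemma: given points `x m` in open sets `U m`, there are a point `w` and an ultrafilter
such that every neighbourhood of `w`, and every negative neighbourhood, meets `U m` for many
`m`. -/
lemma key [CompactSpace T] (x : ℕ → G) (U : ℕ → Set G)
    (hU : ∀ m, @IsOpen G (coneTop D.h D.r) (U m)) (hx : ∀ m, x m ∈ U m)
    (p : Ultrafilter ℕ) :
    ∃ w : G, ∀ W : Set (J → T), IsOpen W → D.h w ∈ W →
      {m | ∃ a ∈ U m, D.h a ∈ W ∧ D.r w a ∧ D.r a w} ∈ p := by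
  let _ : TopologicalSpace G := coneTop D.h D.r
  have h1 : ∀ m, ∃ (F : Finset J) (u : J → Set T), (∀ j ∈ F, IsOpen (u j) ∧ D.h (x m) j ∈ u j) ∧
      ∀ y : G, (∀ j ∈ F, D.h y j ∈ u j) → D.r (x m) y → y ∈ U m := by
    intro m
    obtain ⟨W, hW, hxW, hy⟩ := hU m (x m) (hx m)
    obtain ⟨F, u, hF, hFu⟩ := exists_box W hW _ hxW
    exact ⟨F, u, hF, fun y h1 h2 => hy y (hFu _ h1) h2⟩
  choose F u hFu hFU using h1
  obtain ⟨b, hb⟩ := D.bdd x
  let C : Set J := ⋃ m, (F m : Set J)
  have hC : C.Countable := Set.countable_iUnion fun m => (F m).countable_toSet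
  -- the limit of `h (x m)` along `p`
  obtain ⟨w0, -, hw0⟩ := (isCompact_univ : IsCompact (univ : Set (J → T))).ultrafilter_le_nhds
    (p.map fun m => D.h (x m)) (by simp)
  obtain ⟨w, hwC, hbw, hwb⟩ := D.dense C hC w0 b
  refine ⟨w, fun W hW hwW => ?_⟩
  obtain ⟨E, v, hv, hEv⟩ := exists_box W hW _ hwW
  -- for many `m`, `h (x m) j ∈ v j` for `j ∈ E ∩ C`
  have h2 : ∀ j ∈ E, j ∈ C → {m | D.h (x m) j ∈ v j} ∈ p := by
    intro j hjE hjC
    have h3 : {y : J → T | y j ∈ v j} ∈ 𝓝 w0 := by
      refine ((hv j hjE).1.preimage (continuous_apply j)).mem_nhds ?_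
      simp only [mem_preimage]
      rw [← hwC j hjC]
      exact (hv j hjE).2
    exact hw0 h3
  have h3 : {m | ∀ j ∈ E, j ∈ C → D.h (x m) j ∈ v j} ∈ p := by
    have : {m | ∀ j ∈ E, j ∈ C → D.h (x m) j ∈ v j} =
        ⋂ j ∈ E, {m | j ∈ C → D.h (x m) j ∈ v j} := by
      ext m; simp
    rw [this]
    have h4 : (⋂ j ∈ E, {m | j ∈ C → D.h (x m) j ∈ v j}) ∈ (p : Filter ℕ) := by
      rw [Filter.biInter_finset_mem]
      intro j hj
      by_cases hjC : j ∈ C
      · filter_upwards [h2 j hj hjC] with m hm _ using hm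
      · filter_upwards with m hm using absurd hm hjC
    exact h4
  have h5 : {m | ∀ j ∈ E, j ∈ C → D.h (x m) j ∈ v j} ∈ (p : Filter ℕ) := h3
  show {m | ∃ a ∈ U m, D.h a ∈ W ∧ D.r w a ∧ D.r a w} ∈ (p : Filter ℕ)
  filter_upwards [h5] with m hm
  classical
  obtain ⟨a, ha, hwa, haw⟩ := D.dense (C ∪ E) (hC.union E.countable_toSet)
    (fun j => if j ∈ C then D.h (x m) j else D.h w j) w
  refine ⟨a, ?_, ?_, hwa, haw⟩
  · refine hFU m a (fun j hj => ?_) (D.trans _ _ _ (hb m) (D.trans _ _ _ hbw hwa))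
    have hjC : j ∈ C := Set.mem_iUnion.2 ⟨m, hj⟩
    rw [ha j (Or.inl hjC), if_pos hjC]
    exact (hFu m j hj).2
  · refine hEv _ (fun j hj => ?_)
    rw [ha j (Or.inr hj)]
    by_cases hjC : j ∈ C
    · rw [if_pos hjC]; exact hm j hj hjC
    · rw [if_neg hjC]; exact (hv j hj).2

/-- Pseudocompactness (feeble compactness). -/
lemma feebly [CompactSpace T] (ι : Type) (U : ι → Set G)
    (hlf : @LocallyFinite ι G (coneTop D.h D.r) U)
    (hU : ∀ i, @IsOpen G (coneTop D.h D.r) (U i) ∧ (U i).Nonempty) : Finite ι := by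
  let _ : TopologicalSpace G := coneTop D.h D.r
  by_contra hinf
  rw [not_finite_iff_infinite] at hinf
  let e := Infinite.natEmbedding ι
  choose x hx using fun i => (hU i).2
  obtain ⟨w, hw⟩ := key D (fun m => x (e m)) (fun m => U (e m)) (fun m => (hU _).1)
    (fun m => hx _) (Filter.hyperfilter ℕ)
  obtain ⟨t, ht, hfin⟩ := hlf w
  rw [mem_nhds_iff'] at ht
  obtain ⟨W, hW, hwW, hy⟩ := ht
  have h1 := hw W hW hwW
  have h2 : {m | ∃ a ∈ U (e m), D.h a ∈ W ∧ D.r w a ∧ D.r a w} ⊆
      e ⁻¹' {i | (U i ∩ t).Nonempty} := by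
    rintro m ⟨a, ha, haW, hwa, -⟩
    exact ⟨a, ha, hy a haW hwa⟩
  have h3 : (e ⁻¹' {i | (U i ∩ t).Nonempty}).Finite := hfin.preimage e.injective.injOn
  exact Filter.notMem_hyperfilter_of_finite (h3.subset h2) h1

/-- 2-pseudocompactness. -/
lemma two [CompactSpace T] (U : ℕ → Set G)
    (hU : ∀ n, @IsOpen G (coneTop D.h D.r) (U n)) (hne : ∀ n, (U n).Nonempty)
    (hanti : Antitone U) : (⋂ n, @closure G (coneTop D.h D.r) (-(U n))).Nonempty := by
  let _ : TopologicalSpace G := coneTop D.h D.r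
  choose x hx using hne
  obtain ⟨w, hw⟩ := key D x U hU hx (Filter.hyperfilter ℕ)
  refine ⟨-w, Set.mem_iInter.2 fun n => ?_⟩
  rw [_root_.mem_closure_iff_nhds]
  intro N hN
  rw [mem_nhds_iff'] at hN
  obtain ⟨W, hW, hwW, hy⟩ := hN
  have h1 : IsOpen (-W) := hW.neg
  have h2 : D.h w ∈ -W := by rw [Set.mem_neg, ← map_neg]; exact hwW
  have h3 := hw (-W) h1 h2
  have h4 : {m | n ≤ m} ∈ Filter.hyperfilter ℕ := by
    have : {m | n ≤ m} ∈ (Filter.hyperfilter ℕ : Filter ℕ) := by
      apply Filter.mem_hyperfilter_of_finite_compl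
      have : {m | n ≤ m}ᶜ = {m | m < n} := by ext m; simp
      rw [this]
      exact Set.finite_lt_nat n
    exact this
  obtain ⟨m, ⟨a, haU, haW, hwa, haw⟩, hnm⟩ := Ultrafilter.nonempty_of_mem (Filter.inter_mem h3 h4)
  refine ⟨-a, hy (-a) ?_ ?_, ?_⟩
  · rw [map_neg]; exact haW
  · have := D.add _ _ _ _ haw (D.refl (-a + -w))
    simpa using this
  · rw [Set.mem_neg, neg_neg]
    exact hanti hnm haU

/-- 2-pseudocompactness implies the Baire property. -/
lemma baire [CompactSpace T] : @BaireSpace G (coneTop D.h D.r) := by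
  let _ : TopologicalSpace G := coneTop D.h D.r
  have := continuousAdd D
  refine ⟨fun f hfo hfd => ?_⟩
  rw [dense_iff_inter_open]
  intro U hU hUne
  -- step: inside a nonempty open set `V` find a nonempty open `V'` with
  -- `-closure (-V') ⊆ V ∩ f n`
  have step : ∀ (n : ℕ) (V : {V : Set G // IsOpen V ∧ V.Nonempty}),
      ∃ V' : {V : Set G // IsOpen V ∧ V.Nonempty},
        V'.1 ⊆ V.1 ∧ ∀ y, y ∈ closure (-V'.1) → -y ∈ V.1 ∩ f n := by
    rintro n ⟨V, hVo, hVne⟩
    obtain ⟨x, hxV, hxf⟩ := (hfd n).inter_open_nonempty V hVo hVne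
    have hO : IsOpen (V ∩ f n) := hVo.inter (hfo n)
    have hc : ContinuousAt (fun p : G × G => p.1 + p.2) (x, 0) :=
      continuous_add.continuousAt
    have h1 : V ∩ f n ∈ 𝓝 (x + 0) := by
      rw [add_zero]; exact hO.mem_nhds ⟨hxV, hxf⟩
    have h2 := hc h1
    rw [Filter.mem_map, nhds_prod_eq, Filter.mem_prod_iff] at h2
    obtain ⟨A, hA, B, hB, hAB⟩ := h2
    obtain ⟨A', hA'A, hA'o, hxA'⟩ := mem_nhds_iff.1 hA
    have h0B : (0 : G) ∈ B := mem_of_mem_nhds hB
    refine ⟨⟨A', hA'o, ⟨x, hxA'⟩⟩, ?_, ?_⟩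
    · intro a ha
      have := hAB (Set.mk_mem_prod (hA'A ha) h0B)
      simp only [mem_preimage, add_zero] at this
      exact this.1
    · intro y hy
      rw [_root_.mem_closure_iff_nhds] at hy
      -- the neighbourhood `y + B` of `y`
      have h3 : (fun z => -y + z) ⁻¹' B ∈ 𝓝 y := by
        have hct : ContinuousAt (fun z : G => -y + z) y := (continuous_const.add continuous_id).continuousAt
        apply hct
        simpa using hB
      obtain ⟨z, hz1, hz2⟩ := hy _ h3
      rw [Set.mem_neg] at hz2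
      have := hAB (Set.mk_mem_prod (hA'A hz2) hz1)
      simp only [mem_preimage] at this
      have h4 : -z + (-y + z) = -y := by abel
      rwa [h4] at this
  choose g hg1 hg2 using step
  let V : ℕ → {V : Set G // IsOpen V ∧ V.Nonempty} :=
    fun n => Nat.rec ⟨U, hU, hUne⟩ (fun n V => g n V) n
  have hV0 : (V 0).1 = U := rfl
  have hVs : ∀ n, V (n + 1) = g n (V n) := fun n => rfl
  have hanti : Antitone fun n => (V n).1 :=
    antitone_nat_of_succ_le fun n => by rw [hVs]; exact hg1 n (V n)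
  obtain ⟨y, hy⟩ := two D (fun n => (V n).1) (fun n => (V n).2.1) (fun n => (V n).2.2) hanti
  rw [Set.mem_iInter] at hy
  have h5 : ∀ n, -y ∈ (V n).1 ∩ f n := by
    intro n
    apply hg2 n (V n) y
    have := hy (n + 1)
    rw [hVs] at this
    exact this
  exact ⟨-y, (h5 0).1, Set.mem_iInter.2 fun n => (h5 n).2⟩

end Abstract


section Concrete

/-- Index set of the generators: all functions `ℕ → ℕ`. -/
abbrev X : Type := ℕ → ℕ

/-- The coordinates. -/
abbrev J : Type := X × ℝ

/-- The compact group `(ℤ_2)^J`. -/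
abbrev K : Type := J → ℤ_[2]

/-- The free abelian group on `X`. -/
abbrev L : Type := X →₀ ℤ

/-- Elements of `K` with countable support. -/
def Sig : AddSubgroup K where
  carrier := {x | {j | x j ≠ 0}.Countable}
  add_mem' := by
    intro a b ha hb
    refine (ha.union hb).mono ?_
    intro j hj
    by_contra hcon
    rw [Set.mem_union] at hcon
    rw [not_or] at hcon
    obtain ⟨h1, h2⟩ := hcon
    have h1 : a j = 0 := by simpa using h1
    have h2 : b j = 0 := by simpa using h2
    apply hj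
    rw [Pi.add_apply, h1, h2, add_zero]
  zero_mem' := by
    simp
  neg_mem' := by
    intro a ha
    refine Set.Countable.mono ?_ ha
    intro j hj
    simpa using hj

/-- The group. -/
abbrev G : Type := L × Sig

/-- The embedding of the free abelian group in `K`. -/
noncomputable def iota : L →+ K where
  toFun l := fun j => ((l j.1 : ℤ) : ℤ_[2])
  map_zero' := by ext j; simp
  map_add' := by intro a b; ext j; simp

/-- The homomorphism `G → K`. -/
noncomputable def hh : G →+ K where
  toFun x := iota x.1 + (x.2 : K)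
  map_zero' := by simp
  map_add' := by intro a b; simp only [Prod.fst_add, Prod.snd_add, map_add, AddSubgroup.coe_add]; abel

/-- The homomorphism from `L` to integer sequences sending a generator `f` to `f`. -/
noncomputable def psi : L →+ (ℕ → ℤ) :=
  (Finsupp.linearCombination ℤ (fun f : X => fun n : ℕ => ((f n : ℕ) : ℤ))).toAddMonoidHom

lemma psi_single (f : X) (n : ℕ) : psi (Finsupp.single f 1) n = f n := by
  simp [psi]

/-- The preorder: eventual domination of the `psi`-images. -/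
def rr (x y : G) : Prop := ∀ᶠ n in atTop, psi x.1 n ≤ psi y.1 n

lemma hh_inj : Function.Injective hh := by
  rw [injective_iff_map_eq_zero]
  rintro ⟨l, s⟩ hx
  have h1 : ∀ j : J, ((l j.1 : ℤ) : ℤ_[2]) + (s : K) j = 0 := by
    intro j
    exact congrFun hx j
  have hl : l = 0 := by
    ext f
    by_contra hne
    have h2 : (s : K) ∈ Sig := s.2
    have h3 : ({j | (s : K) j ≠ 0} : Set J).Countable := h2
    have h4 : (univ : Set ℝ) ⊆ (fun t : ℝ => ((f, t) : J)) ⁻¹' {j | (s : K) j ≠ 0} := by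
      intro t _
      show (s : K) (f, t) ≠ 0
      intro h0
      have := h1 (f, t)
      rw [h0, add_zero] at this
      simp only [Int.cast_eq_zero] at this
      exact hne this
    have h5 : (univ : Set ℝ).Countable :=
      (h3.preimage (fun a b hab => (Prod.ext_iff.1 hab).2)).mono h4
    exact Set.not_countable_univ h5
  subst hl
  have hs : s = 0 := by
    ext j
    have := h1 j
    simpa using this
  rw [hs]
  rfl

lemma exists_ub (x : ℕ → G) : ∃ f : X, ∀ n, rr (x n) (Finsupp.single f 1, 0) := by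
  refine ⟨fun n => ∑ k ∈ Finset.range (n + 1), (psi (x k).1 n).toNat, fun k => ?_⟩
  refine Filter.eventually_atTop.2 ⟨k, fun n hn => ?_⟩
  rw [psi_single]
  have h1 : (psi (x k).1 n).toNat ≤ ∑ k ∈ Finset.range (n + 1), (psi (x k).1 n).toNat :=
    Finset.single_le_sum (f := fun k => (psi (x k).1 n).toNat) (fun _ _ => Nat.zero_le _)
      (Finset.mem_range.2 (Nat.lt_succ_of_le hn))
  have h2 : psi (x k).1 n ≤ ((psi (x k).1 n).toNat : ℤ) := Int.self_le_toNat _
  exact h2.trans (by exact_mod_cast h1)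

lemma exists_fill (C : Set J) (hC : C.Countable) (t : K) (l : L) :
    ∃ s : Sig, ∀ j ∈ C, hh (l, s) j = t j := by
  classical
  refine ⟨⟨fun j => if j ∈ C then t j - iota l j else 0, ?_⟩, ?_⟩
  · refine hC.mono ?_
    intro j hj
    by_contra hjC
    exact hj (if_neg hjC)
  · intro j hj
    show iota l j + (if j ∈ C then t j - iota l j else 0) = t j
    rw [if_pos hj]
    abel

/-- The concrete data. -/
noncomputable def DD : Data J ℤ_[2] G where
  h := hh
  r := rr
  refl := fun x => Filter.Eventually.of_forall fun _ => le_rfl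
  trans := fun x y z hxy hyz => by
    filter_upwards [hxy, hyz] with n h1 h2 using h1.trans h2
  add := fun x y x' y' h1 h2 => by
    filter_upwards [h1, h2] with n h3 h4
    simp only [Prod.fst_add, map_add, Pi.add_apply]
    exact add_le_add h3 h4
  inj := hh_inj
  bdd := fun x => by
    obtain ⟨f, hf⟩ := exists_ub x
    exact ⟨_, hf⟩
  dense := fun C hC t x => by
    obtain ⟨s, hs⟩ := exists_fill C hC t x.1
    exact ⟨(x.1, s), hs, Filter.Eventually.of_forall fun _ => le_rfl,
      Filter.Eventually.of_forall fun _ => le_rfl⟩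
  pos := by
    refine ⟨(Finsupp.single (fun _ => 1) 1, 0), ?_, ?_⟩
    · intro h
      obtain ⟨n, hn⟩ := Filter.Eventually.exists h
      rw [psi_single] at hn
      simp at hn
    · refine Filter.Eventually.of_forall fun n => ?_
      rw [psi_single]
      simp

/-- The dense set at which the group is countably compact. -/
def AA : Set G := {x | ∃ f : X, x.1 = Finsupp.single f 1}

lemma dense_AA : @Dense G (coneTop DD.h DD.r) AA := by
  let _ : TopologicalSpace G := coneTop DD.h DD.r
  rw [dense_iff_inter_open]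
  rintro U hU ⟨x, hxU⟩
  obtain ⟨W, hW, hxW, hy⟩ := hU x hxU
  obtain ⟨F, v, hv, hFv⟩ := exists_box W hW _ hxW
  obtain ⟨f, hf⟩ := exists_ub (fun _ => x)
  obtain ⟨s, hs⟩ := exists_fill (F : Set J) F.countable_toSet (hh x) (Finsupp.single f 1)
  refine ⟨(Finsupp.single f 1, s), hy _ (hFv _ fun j hj => ?_) (hf 0), f, rfl⟩
  have h1 : DD.h (Finsupp.single f 1, s) j = hh x j := hs j hj
  rw [h1]
  exact (hv j hj).2

lemma pracompact_AA (B : Set G) (hBA : B ⊆ AA) (hB : B.Infinite) :
    ∃ x : G, ∀ U ∈ @nhds G (coneTop DD.h DD.r) x, (U ∩ B).Infinite := by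
  let _ : TopologicalSpace G := coneTop DD.h DD.r
  classical
  let b := Set.Infinite.natEmbedding B hB
  have hbB : ∀ m, (b m : G) ∈ B := fun m => (b m).2
  choose f hf using fun m => hBA (hbB m)
  let p : Ultrafilter ℕ := Filter.hyperfilter ℕ
  -- the limit of `f`
  obtain ⟨l, hl0, hl⟩ : ∃ l : L, (∀ n, 0 ≤ psi l n ∧ ∀ᶠ m in (p : Filter ℕ), psi l n ≤ psi (b m : G).1 n ∧ (l = 0 ∨ l = (b m : G).1)) ∧
      ∀ g : X, ∀ᶠ m in (p : Filter ℕ), (b m : G).1 g = l g := by
    by_cases hc : ∃ g : X, ∀ᶠ m in (p : Filter ℕ), f m = g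
    · obtain ⟨g, hg⟩ := hc
      refine ⟨Finsupp.single g 1, ?_, ?_⟩
      · intro n
        refine ⟨by rw [psi_single]; exact_mod_cast Nat.zero_le _, ?_⟩
        filter_upwards [hg] with m hm
        rw [hf m, hm]
        exact ⟨le_rfl, Or.inr rfl⟩
      · intro g'
        filter_upwards [hg] with m hm
        rw [hf m, hm]
    · push Not at hc
      refine ⟨0, ?_, ?_⟩
      · intro n
        refine ⟨by simp, ?_⟩
        filter_upwards with m
        rw [hf m, psi_single]
        simp
      · intro g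
        have h1 := hc g
        have h2 : ∀ᶠ m in (p : Filter ℕ), f m ≠ g := h1
        filter_upwards [h2] with m hm
        rw [hf m, Finsupp.single_apply, if_neg hm]
        rfl
  -- the limit of the countable-support parts
  have hlr : ∀ᶠ m in (p : Filter ℕ), rr (l, 0) (b m : G) := by
    by_cases h0 : l = 0
    · refine Filter.Eventually.of_forall fun m => ?_
      refine Filter.Eventually.of_forall fun n => ?_
      rw [hf m, psi_single]
      simp [h0]
    · filter_upwards [(hl0 0).2] with m hm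
      rcases hm.2 with h | h
      · exact absurd h h0
      · refine Filter.Eventually.of_forall fun n => ?_
        rw [← h]
  obtain ⟨w0, -, hw0⟩ := (isCompact_univ : IsCompact (univ : Set K)).ultrafilter_le_nhds
    (p.map fun m => ((b m : G).2 : K)) (by simp)
  have hC : (⋃ m, {j | ((b m : G).2 : K) j ≠ 0} : Set J).Countable :=
    Set.countable_iUnion fun m => (b m : G).2.2
  have hw0C : ∀ j, j ∉ (⋃ m, {j | ((b m : G).2 : K) j ≠ 0} : Set J) → w0 j = 0 := by
    intro j hj
    by_contra hne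
    have h3 : {y : K | y j ∈ ({0}ᶜ : Set ℤ_[2])} ∈ 𝓝 w0 := by
      refine (isOpen_compl_singleton.preimage (continuous_apply j)).mem_nhds ?_
      exact hne
    have h4 : {m | ((b m : G).2 : K) j ≠ 0} ∈ p := hw0 h3
    obtain ⟨m, hm⟩ := Ultrafilter.nonempty_of_mem h4
    exact hj (Set.mem_iUnion.2 ⟨m, hm⟩)
  have hw0S : w0 ∈ Sig := by
    refine Set.Countable.mono ?_ hC
    intro j hj
    by_contra hcon
    exact hj (hw0C j hcon)
  refine ⟨(l, ⟨w0, hw0S⟩), fun U hU => ?_⟩
  rw [mem_nhds_iff'] at hU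
  obtain ⟨W, hW, hwW, hy⟩ := hU
  obtain ⟨E, v, hv, hEv⟩ := exists_box W hW _ hwW
  have h1 : ∀ j ∈ E, ∀ᶠ m in (p : Filter ℕ), hh (b m : G) j ∈ v j := by
    intro j hj
    have h2 := hl j.1
    have h3 : {y : K | iota l j + y j ∈ v j} ∈ 𝓝 w0 := by
      have : IsOpen {y : K | iota l j + y j ∈ v j} := by
        have hc : Continuous fun y : K => iota l j + y j :=
          continuous_const.add (continuous_apply j)
        exact (hv j hj).1.preimage hc
      exact this.mem_nhds (hv j hj).2
    have h4 : ∀ᶠ m in (p : Filter ℕ), iota l j + ((b m : G).2 : K) j ∈ v j := hw0 h3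
    filter_upwards [h2, h4] with m h5 h6
    have h7 : hh (b m : G) j = iota l j + ((b m : G).2 : K) j := by
      show (((b m : G).1 j.1 : ℤ) : ℤ_[2]) + ((b m : G).2 : K) j =
        ((l j.1 : ℤ) : ℤ_[2]) + ((b m : G).2 : K) j
      rw [h5]
    rw [h7]
    exact h6
  have h2 : ∀ᶠ m in (p : Filter ℕ), ∀ j ∈ E, hh (b m : G) j ∈ v j := by
    have := (Filter.eventually_all_finset E (l := (p : Filter ℕ))
      (p := fun j m => hh (b m : G) j ∈ v j)).2 h1
    exact this
  have h3 : ∀ᶠ m in (p : Filter ℕ), (b m : G) ∈ U := by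
    filter_upwards [h2, hlr] with m hm1 hm2
    exact hy _ (hEv _ hm1) hm2
  by_contra hfin
  rw [Set.not_infinite] at hfin
  have h4 : {m | (b m : G) ∈ U} ⊆ (fun m => (b m : G)) ⁻¹' (U ∩ B) := fun m hm => ⟨hm, hbB m⟩
  have h5 : ((fun m => (b m : G)) ⁻¹' (U ∩ B)).Finite :=
    hfin.preimage (fun a _ c _ hac => b.injective (Subtype.ext hac))
  exact Filter.notMem_hyperfilter_of_finite (h5.subset h4) h3

end Concrete

/-- There is (in ZFC) a Hausdorff abelian paratopological group which is not a topological group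
and which is countably pracompact, Baire, pseudocompact and 2-pseudocompact; so it satisfies
conditions (2), (3) and (4) of the problem simultaneously. -/
theorem exists_group :
    ∃ (G : Type) (_ : CommGroup G) (_ : TopologicalSpace G),
      -- paratopological group, not a topological group
      ContinuousMul G ∧ ¬ IsTopologicalGroup G ∧
      -- Hausdorff and Baire
      T2Space G ∧ BaireSpace G ∧
      -- countably pracompact: countably compact at a dense subset `A`
      (∃ A : Set G, Dense A ∧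
        ∀ B : Set G, B ⊆ A → B.Infinite → ∃ x : G, ∀ U ∈ 𝓝 x, (U ∩ B).Infinite) ∧
      -- pseudocompact: locally finite families of nonempty open sets are finite
      (∀ (ι : Type) (U : ι → Set G), LocallyFinite U →
        (∀ i, IsOpen (U i) ∧ (U i).Nonempty) → Finite ι) ∧
      -- 2-pseudocompact
      (∀ U : ℕ → Set G, (∀ n, IsOpen (U n)) → (∀ n, (U n).Nonempty) → Antitone U →
        (⋂ n, closure ((U n)⁻¹)).Nonempty) := by
  let _ : TopologicalSpace G := coneTop DD.h DD.r
  have : ContinuousAdd G := continuousAdd DD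
  refine ⟨Multiplicative G, inferInstance, inferInstance, inferInstance, ?_, ?_, ?_, ?_, ?_, ?_⟩
  · intro hG
    apply not_continuousNeg DD
    refine ⟨?_⟩
    have h1 : Continuous fun x : Multiplicative G => x⁻¹ := continuous_inv
    exact h1
  · exact t2 DD
  · exact baire DD
  · exact ⟨AA, dense_AA, pracompact_AA⟩
  · exact fun ι U h1 h2 => feebly DD ι U h1 h2
  · exact fun U h1 h2 h3 => two DD U h1 h2 h3

end Pool.Agent.MP_3a0237_al.Construction
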